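import Pool.Agent.Q293.HF.Stm

/-! Job HF-CAB. -/

set_option autoImplicit false

open Topology Filter

namespace Pool.Agent.Q204.HF

open Pool.Agent.Helper922.HB Pool.Agent.Q293.HF

/-- the principal square root -/
noncomputable def sq2 (p : ℂ) : ℂ := p ^ (((2 : ℕ) : ℂ)⁻¹)

/-- the principal cube root -/
noncomputable def cb (p : ℂ) : ℂ := p ^ (((3 : ℕ) : ℂ)⁻¹)

theorem sq2_pow (p : ℂ) : sq2 p ^ 2 = p := Complex.cpow_nat_inv_pow p two_ne_zero

theorem cb_pow (p : ℂ) : cb p ^ 3 = p := Complex.cpow_nat_inv_pow p three_ne_zero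

theorem sq2_re {p : ℂ} (hp : 0 < p.re) : 0 < (sq2 p).re := by
  have hne : p ≠ 0 := by
    rintro rfl
    simp at hp
  unfold sq2
  rw [Complex.cpow_def_of_ne_zero hne, Complex.exp_re]
  have h1 : |p.arg| < Real.pi / 2 := Complex.abs_arg_lt_pi_div_two_iff.2 (Or.inl hp)
  have h2 : (Complex.log p * ((2 : ℕ) : ℂ)⁻¹).im = p.arg / 2 := by
    have : ((2 : ℕ) : ℂ)⁻¹ = ((1 / 2 : ℝ) : ℂ) := by push_cast; norm_num
    rw [this, Complex.im_mul_ofReal, Complex.log_im]
    ring
  rw [h2]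
  refine mul_pos (Real.exp_pos _) (Real.cos_pos_of_mem_Ioo ?_)
  have h3 := abs_lt.1 h1
  have h4 := Real.pi_pos
  constructor <;> linarith [h3.1, h3.2]

theorem cb_sector {p : ℂ} (hp : 0 < p.re) : √3 * |(cb p).im| < (cb p).re := by
  have hne : p ≠ 0 := by
    rintro rfl
    simp at hp
  unfold cb
  rw [Complex.cpow_def_of_ne_zero hne, Complex.exp_re, Complex.exp_im]
  have h1 : |p.arg| < Real.pi / 2 := Complex.abs_arg_lt_pi_div_two_iff.2 (Or.inl hp)
  have h2 : (Complex.log p * ((3 : ℕ) : ℂ)⁻¹).im = p.arg / 3 := by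
    have : ((3 : ℕ) : ℂ)⁻¹ = ((1 / 3 : ℝ) : ℂ) := by push_cast; norm_num
    rw [this, Complex.im_mul_ofReal, Complex.log_im]
    ring
  rw [h2, abs_mul, abs_of_pos (Real.exp_pos _)]
  have hs : √3 * |Real.sin (p.arg / 3)| < Real.cos (p.arg / 3) := by
    have h5 : |p.arg / 3| < Real.pi / 6 := by
      rw [abs_div, abs_of_pos (by norm_num : (0 : ℝ) < 3)]
      linarith
    have h6 : √3 / 2 < Real.cos (p.arg / 3) := by
      rw [← Real.cos_pi_div_six, ← Real.cos_abs (p.arg / 3)]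
      exact Real.cos_lt_cos_of_nonneg_of_le_pi_div_two (abs_nonneg _) (by linarith [Real.pi_pos]) h5
    have h7 : |Real.sin (p.arg / 3)| < 1 / 2 := by
      have h8 : |Real.sin (p.arg / 3)| = Real.sin |p.arg / 3| := by
        rcases le_total 0 (p.arg / 3) with h | h
        · rw [abs_of_nonneg h, abs_of_nonneg]
          exact Real.sin_nonneg_of_nonneg_of_le_pi h (by
            have := (abs_lt.1 h5).2
            linarith [Real.pi_pos])
        · rw [abs_of_nonpos h, Real.sin_neg, abs_of_nonpos]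
          exact Real.sin_nonpos_of_nonpos_of_neg_pi_le h (by
            have := (abs_lt.1 h5).1
            linarith [Real.pi_pos])
      rw [h8, ← Real.sin_pi_div_six]
      exact Real.sin_lt_sin_of_lt_of_le_pi_div_two (by linarith [Real.pi_pos, abs_nonneg (p.arg / 3)])
        (by linarith [Real.pi_pos]) h5
    have h9 : (0 : ℝ) < √3 := Real.sqrt_pos.2 (by norm_num)
    nlinarith
  calc √3 * (Real.exp (Complex.log p * ((3 : ℕ) : ℂ)⁻¹).re * |Real.sin (p.arg / 3)|)
      = Real.exp (Complex.log p * ((3 : ℕ) : ℂ)⁻¹).re * (√3 * |Real.sin (p.arg / 3)|) := by ring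
    _ < Real.exp (Complex.log p * ((3 : ℕ) : ℂ)⁻¹).re * Real.cos (p.arg / 3) :=
      mul_lt_mul_of_pos_left hs (Real.exp_pos _)

theorem sq2_sq {z : ℂ} (hz : 0 < z.re) : sq2 (z ^ 2) = z := by
  have h1 : |z.arg| < Real.pi / 2 := Complex.abs_arg_lt_pi_div_two_iff.2 (Or.inl hz)
  have h2 := abs_lt.1 h1
  exact Complex.pow_cpow_nat_inv two_ne_zero (by push_cast; exact h2.1) (by push_cast; exact h2.2.le)

theorem arg_sector {z : ℂ} (hz : √3 * |z.im| < z.re) : |z.arg| < Real.pi / 6 := by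
  have h3 : (0 : ℝ) < √3 := Real.sqrt_pos.2 (by norm_num)
  have hre : 0 < z.re := lt_of_le_of_lt (by positivity) hz
  have hne : z ≠ 0 := by
    rintro rfl
    simp at hre
  have hn : 0 < ‖z‖ := norm_pos_iff.2 hne
  rw [Complex.arg_of_re_nonneg hre.le]
  have h4 : |z.im / ‖z‖| < 1 / 2 := by
    rw [abs_div, abs_of_pos hn, div_lt_iff₀ hn]
    have h5 : ‖z‖ ^ 2 = z.re ^ 2 + z.im ^ 2 := by
      rw [← Complex.normSq_eq_norm_sq, Complex.normSq_apply]
      ring
    have h6 : (√3 * |z.im|) ^ 2 < z.re ^ 2 := by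
      have := abs_nonneg z.im
      exact pow_lt_pow_left₀ hz (by positivity) two_ne_zero
    rw [mul_pow, Real.sq_sqrt (by norm_num), sq_abs] at h6
    have h7 : (2 * |z.im|) ^ 2 < ‖z‖ ^ 2 := by
      rw [h5, mul_pow, sq_abs]
      linarith
    have h8 := lt_of_pow_lt_pow_left₀ 2 hn.le h7
    linarith
  have h5 := abs_lt.1 h4
  have h6 : Real.arcsin (1 / 2) = Real.pi / 6 := by
    rw [← Real.sin_pi_div_six]
    exact Real.arcsin_sin (by linarith [Real.pi_pos]) (by linarith [Real.pi_pos])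
  rw [abs_lt]
  constructor
  · rw [← h6, ← Real.arcsin_neg]
    exact Real.strictMonoOn_arcsin ⟨by norm_num, by norm_num⟩ ⟨by linarith [h5.1], by linarith [h5.2]⟩
      (by linarith [h5.1])
  · rw [← h6]
    exact Real.strictMonoOn_arcsin ⟨by linarith [h5.1], by linarith [h5.2]⟩ ⟨by norm_num, by norm_num⟩
      h5.2

theorem cb_cube {z : ℂ} (hz : √3 * |z.im| < z.re) : cb (z ^ 3) = z := by
  have h2 := abs_lt.1 (arg_sector hz)
  have := Real.pi_pos
  exact Complex.pow_cpow_nat_inv three_ne_zero (by push_cast; linarith [h2.1]) (by push_cast; linarith [h2.2])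

theorem cont_sq2 {T : Type} [TopologicalSpace T] {f : T → ℂ} (hf : Continuous f) (h : ∀ t, 0 < (f t).re) :
    Continuous fun t => sq2 (f t) := by
  unfold sq2
  exact hf.cpow continuous_const fun t => Or.inl (h t)

theorem cont_cb {T : Type} [TopologicalSpace T] {f : T → ℂ} (hf : Continuous f) (h : ∀ t, 0 < (f t).re) :
    Continuous fun t => cb (f t) := by
  unfold cb
  exact hf.cpow continuous_const fun t => Or.inl (h t)

theorem cab : S_CAB := by
  intro s r hs hr
  have hs2 : s ^ 2 = 1 := by rcases hs with rfl | rfl <;> norm_num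
  have hr0 : r ≠ 0 := by
    rintro rfl
    norm_num at hr
  let C : Set (ℂ × ℂ) := {q | 1 / 3 < q.2.re ∧ q.2.re < 2 / 3}
  have hC : Convex ℝ C := by
    have h1 : C = (Complex.reLm.comp (LinearMap.snd ℝ ℂ ℂ)) ⁻¹' Set.Ioo (1 / 3) (2 / 3) := by
      ext q
      simp [C, Set.mem_Ioo]
    rw [h1]
    exact (convex_Ioo _ _).linear_preimage _
  have hCn : C.Nonempty := ⟨(0, ((1 / 2 : ℝ) : ℂ)), by
    simp only [C, Set.mem_ofPred_eq, Complex.ofReal_re]
    norm_num⟩
  haveI : ContractibleSpace C := hC.contractibleSpace hCn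
  have hp0 : ∀ q : C, 0 < (q : ℂ × ℂ).2.re := fun q => by linarith [q.2.1]
  have hp1 : ∀ q : C, 0 < (1 - (q : ℂ × ℂ).2).re := fun q => by
    rw [Complex.sub_re, Complex.one_re]
    linarith [q.2.2]
  let e : ↥{e : ℂ × (ℂ × ℂ) |
      (e.2.2 ^ 2 - e.2.1 ^ 3 = 1 ∧ 1 / 3 < (e.2.2 ^ 2).re ∧ 0 < (s * e.2.2).re) ∧
      (e.2.2 ^ 2 - e.2.1 ^ 3 = 1 ∧ (e.2.2 ^ 2).re < 2 / 3 ∧ √3 * |(-r * e.2.1).im| < (-r * e.2.1).re)} ≃ₜ C :=
    { toFun := fun w => ⟨(w.1.1, w.1.2.2 ^ 2), w.2.1.2.1, w.2.2.2.1⟩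
      invFun := fun q => ⟨(q.1.1, (-r⁻¹ * cb (1 - q.1.2), s * sq2 q.1.2)), by
        have h1 : (s * sq2 q.1.2) ^ 2 = q.1.2 := by rw [mul_pow, hs2, one_mul, sq2_pow]
        have h2 : (-r⁻¹ * cb (1 - q.1.2)) ^ 3 = -(1 - q.1.2) := by
          rw [mul_pow, cb_pow, neg_pow, inv_pow, hr]
          norm_num
        have h3 : s * (s * sq2 q.1.2) = sq2 q.1.2 := by
          rw [← mul_assoc, ← sq, hs2, one_mul]
        have h4 : -r * (-r⁻¹ * cb (1 - q.1.2)) = cb (1 - q.1.2) := by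
          field_simp
        have h5 : (s * sq2 q.1.2) ^ 2 - (-r⁻¹ * cb (1 - q.1.2)) ^ 3 = 1 := by
          rw [h1, h2]
          ring
        refine ⟨⟨h5, ?_, ?_⟩, h5, ?_, ?_⟩
        · rw [h1]
          exact q.2.1
        · rw [h3]
          exact sq2_re (hp0 q)
        · rw [h1]
          exact q.2.2
        · rw [h4]
          exact cb_sector (hp1 q)⟩
      left_inv := by
        rintro ⟨⟨v, x, y⟩, ⟨h1, h2, h3⟩, -, h4, h5⟩
        simp only at h1 h2 h3 h4 h5
        apply Subtype.ext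
        have hy : s * sq2 (y ^ 2) = y := by
          have : y ^ 2 = (s * y) ^ 2 := by rw [mul_pow, hs2, one_mul]
          rw [this, sq2_sq h3, ← mul_assoc, ← sq, hs2, one_mul]
        have hx : -r⁻¹ * cb (1 - y ^ 2) = x := by
          have : 1 - y ^ 2 = (-r * x) ^ 3 := by
            rw [mul_pow, neg_pow, hr]
            linear_combination -h1
          rw [this, cb_cube h5]
          field_simp
        simp only [hx, hy]
      right_inv := by
        rintro ⟨⟨v, p⟩, h1, h2⟩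
        apply Subtype.ext
        simp only [mul_pow, hs2, one_mul, sq2_pow]
      continuous_toFun := by fun_prop
      continuous_invFun := by
        refine Continuous.subtype_mk ?_ _
        have h1 : Continuous fun q : C => sq2 (q : ℂ × ℂ).2 := cont_sq2 (by fun_prop) hp0
        have h2 : Continuous fun q : C => cb (1 - (q : ℂ × ℂ).2) := cont_cb (by fun_prop) hp1
        fun_prop }
  exact e.contractibleSpace

end Pool.Agent.Q204.HF
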