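import Pool.Agent.Q293.HF.Stm

/-! Jobs HF-KZKI, HF-ZA. -/

set_option autoImplicit false

open Topology Filter
open scoped LinearAlgebra.Projectivization

namespace Pool.Agent.Q204.HF

open Pool.Agent.Helper922.HB Pool.Agent.Q293.HF

theorem kz : S_KZ := by
  have hI : ∀ s : unitInterval, (0 : ℝ) ≤ 1 - (s : ℝ) := fun s => by linarith [s.2.2]
  refine HE_of_homotopyEquiv _ ⟨fun e => ⟨(e.1, (0, 0)), by simp⟩, by fun_prop⟩
    ⟨fun p => ⟨(p.1.1.1, (((1 - (p.2 : ℝ) : ℝ) : ℂ) ^ 2 * p.1.1.2.1, ((1 - (p.2 : ℝ) : ℝ) : ℂ) ^ 3 * p.1.1.2.2)), ?_⟩, ?_⟩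
    ⟨fun p => (p.1.1, (((1 - (p.2 : ℝ) : ℝ) : ℂ) ^ 2 * p.1.2.1, ((1 - (p.2 : ℝ) : ℝ) : ℂ) ^ 3 * p.1.2.2)), by fun_prop⟩
    ?_ ?_ ?_ ?_
  · have h := p.1.2
    simp only [Set.mem_ofPred_eq] at h ⊢
    linear_combination (((1 - (p.2 : ℝ) : ℝ) : ℂ)) ^ 6 * h
  · fun_prop
  · intro x
    ext <;> simp
  · intro x
    apply Subtype.ext
    simp [sub]
  · intro x
    ext <;> simp
  · intro x
    simp [sub]

theorem ki : S_KI := by
  intro t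
  have hb : ∀ (t' w : ℂ) (a : ℝ), ‖t' * w ^ 6‖ < 1 / 2 → 0 ≤ a → a ≤ 1 → ‖t' * ((a : ℂ) * w) ^ 6‖ < 1 / 2 := by
    intro t' w a h h0 h1
    have h2 : t' * ((a : ℂ) * w) ^ 6 = (a : ℂ) ^ 6 * (t' * w ^ 6) := by ring
    rw [h2, norm_mul, norm_pow, Complex.norm_real, Real.norm_of_nonneg h0]
    have h3 : a ^ 6 ≤ 1 := pow_le_one₀ h0 h1
    calc a ^ 6 * ‖t' * w ^ 6‖ ≤ 1 * ‖t' * w ^ 6‖ := mul_le_mul_of_nonneg_right h3 (norm_nonneg _)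
      _ < 1 / 2 := by rw [one_mul]; exact h
  refine HE_of_homotopyEquiv _ ⟨fun e => ⟨(e.1, ⟨(t, 0), by simp⟩), by simp⟩, by fun_prop⟩
    ⟨fun p => ⟨(p.1.1.1, ⟨(p.1.1.2.1.1, ((1 - (p.2 : ℝ) : ℝ) : ℂ) * p.1.1.2.1.2), ?_⟩), ?_⟩, ?_⟩
    ⟨fun p => (p.1.1, ⟨(p.1.2.1.1 + ((max (2 * (p.2 : ℝ) - 1) 0 : ℝ) : ℂ) * (t - p.1.2.1.1),
      ((max (1 - 2 * (p.2 : ℝ)) 0 : ℝ) : ℂ) * p.1.2.1.2), ?_⟩), ?_⟩
    ?_ ?_ ?_ ?_
  · exact hb _ _ _ p.1.1.2.2 (by linarith [p.2.2.2]) (by linarith [p.2.2.1])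
  · exact p.1.2
  · fun_prop
  · rcases le_total (p.2 : ℝ) (1 / 2) with h | h
    · rw [max_eq_right (by linarith : 2 * (p.2 : ℝ) - 1 ≤ 0)]
      simp only [Complex.ofReal_zero, zero_mul, add_zero]
      exact hb _ _ _ p.1.2.2 (le_max_right _ _) (max_le (by linarith [p.2.2.1]) zero_le_one)
    · rw [max_eq_right (by linarith : 1 - 2 * (p.2 : ℝ) ≤ 0)]
      simp
  · fun_prop
  · intro x
    ext <;> simp
  · intro x
    have hx : x.1.2.1.1 = t := x.2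
    apply Subtype.ext
    ext <;> simp [sub, hx]
  · intro x
    ext <;> simp
  · intro x
    ext <;> norm_num [sub]

noncomputable def rr {T : Type} [TopologicalSpace T] : C(Cs × T, ℝ) :=
  ⟨fun e => -Real.log ‖(e.1 : ℂ)‖ / Real.log 2, by
    refine Continuous.div_const (Continuous.neg ?_) _
    refine Continuous.log (by fun_prop) fun e => ?_
    exact norm_ne_zero_iff.2 e.1.2⟩

theorem rr_half {T : Type} [TopologicalSpace T] (z : Cs) (x y : T) :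
    (rr (half z, x) : ℝ) = rr (z, y) + 1 := by
  have h2 : Real.log 2 ≠ 0 := (Real.log_pos one_lt_two).ne'
  change -Real.log ‖z.1 / 2‖ / Real.log 2 = -Real.log ‖z.1‖ / Real.log 2 + 1
  rw [norm_div, Complex.norm_ofNat, Real.log_div (norm_ne_zero_iff.2 z.2) two_ne_zero]
  field_simp
  ring

theorem zgen (h : S_ZC) {E X : Type} [TopologicalSpace E] [TopologicalSpace X] (f : E → X) (hc : Continuous f)
    (ho : IsOpenMap f) (g : E ≃ₜ E) (r : C(E, ℝ)) (hr : ∀ e, r (g e) = r e + 1) (hi : ∀ e, f (g e) = f e)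
    (hf : ∀ e e', f e = f e' → ∃ k : ℤ, (g ^ k) e = e') :
    ∃ p : C(E, ↥(Set.range f)), (∀ e, (p e : X) = f e) ∧ ZCov p g := by
  refine ⟨⟨fun e => ⟨f e, Set.mem_range_self e⟩, by fun_prop⟩, fun e => rfl, ?_⟩
  refine h E _ _ g r hr ?_ ?_ ?_ ?_
  · intro U hU
    have h1 : (fun e => (⟨f e, Set.mem_range_self e⟩ : Set.range f)) '' U = Subtype.val ⁻¹' (f '' U) := by
      ext ⟨x, hx⟩
      simp only [Set.mem_image, Set.mem_preimage, Subtype.mk.injEq]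
    exact h1 ▸ (ho U hU).preimage continuous_subtype_val
  · rintro ⟨x, e, rfl⟩
    exact ⟨e, rfl⟩
  · intro e
    exact Subtype.ext (hi e)
  · intro e e' hee
    exact hf e e' (congrArg Subtype.val hee)

theorem za (h : S_ZC) (h1 : S_OA) (h2 : S_FA) : S_ZA := by
  intro n φ hφ
  exact zgen h (ptA hφ) (h1 n φ hφ).1 (h1 n φ hφ).2 gA rr (fun e => rr_half e.1 _ _) (h2 n φ hφ).1 (h2 n φ hφ).2

theorem zi (h : S_ZC) (h1 : S_OI) (h2 : S_FI) : S_ZI := by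
  intro n φ hφ
  exact zgen h (ptI hφ) (h1 n φ hφ).1 (h1 n φ hφ).2 gI rr (fun e => rr_half e.1 _ _) (h2 n φ hφ).1 (h2 n φ hφ).2

end Pool.Agent.Q204.HF
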